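import Pool.Agent.Helper74.FF.M_PC

/-! Project FF, module P1. -/

set_option autoImplicit false

namespace Pool.Agent.Helper74.FF

open _root_.FF DV
open scoped BigOperators

theorem le_of_sq_le_sq_pos {x : ℝ} (h : x ^ 2 ≤ (1 / 3) ^ 2) : x ≤ 1 / 3 :=
  le_of_sq_le_sq h (by norm_num)

theorem hP1 : StP1 := by
  intro d hd C₀ hC₀
  set D : ℝ := ((d + 1 : ℕ) : ℝ) with hD
  have hD2 : (2:ℝ) ≤ D := by rw [hD]; exact_mod_cast (by omega : 2 ≤ d + 1)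
  set a : ℝ := 1 + Real.log (16 * D) with ha
  have ha1 : 1 ≤ a := by
    have : 0 ≤ Real.log (16 * D) := Real.log_nonneg (by linarith)
    linarith
  set K : ℝ := 864 * D * (12 * (C₀ + 1) + 1) with hK
  have hK0 : 0 < K := by positivity
  refine ⟨K * (40 : ℝ) ^ (((d : ℝ) + 6) / 2) * a ^ 5, by positivity, ?_⟩
  intro ε hε0 hε1 m n hm hn
  set e : ℝ := ε / 40 with he
  have he0 : 0 < e := by positivity
  have he1 : e ≤ 1 / 80 := by rw [he]; linarith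
  set L : ℝ := Lam d m with hL
  have hL4 : 4 ≤ L := Lam_ge d m hd hm
  have hLa : L ≤ a * (1 + Real.log m) := Lam_le d m hm
  obtain ⟨r, M, J, hr1, hr2, hr3, hpow, hMl, hs⟩ := common d C₀ hC₀ e L he0 he1 hL4
  have hr0 : (0:ℝ) < r := by linarith
  obtain ⟨v, hv⟩ : ∃ v : ℝ, v = e ^ 2 / (72 * D * r * L) := ⟨_, rfl⟩
  have hv0 : 0 < v := by rw [hv]; positivity
  have hvL : 0 < v / L := by positivity
  obtain ⟨θ, hθ⟩ : ∃ θ : ℝ, θ = Real.sqrt (v / L) := ⟨_, rfl⟩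
  have hθ0 : 0 < θ := by rw [hθ]; exact Real.sqrt_pos.2 hvL
  have hθ2 : θ ^ 2 = v / L := by rw [hθ]; exact Real.sq_sqrt hvL.le
  have hr1' : (1:ℝ) ≤ r := by linarith
  have hden : (1:ℝ) ≤ 72 * D * r * L := by
    have h1 : (1:ℝ) ≤ D * r := one_le_mul_of_one_le_of_one_le (by linarith) hr1'
    have h2 : (1:ℝ) ≤ D * r * L := one_le_mul_of_one_le_of_one_le h1 (by linarith)
    have h3 : 72 * D * r * L = 72 * (D * r * L) := by ring
    linarith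
  have hee : e ^ 2 ≤ 1 / 9 := by
    have h1 : e ^ 2 ≤ (1 / 80) ^ 2 := pow_le_pow_left₀ he0.le he1 2
    have h2 : ((1:ℝ) / 80) ^ 2 ≤ 1 / 9 := by norm_num
    linarith
  have hv1 : v ≤ 1 / 9 := by
    rw [hv, div_le_iff₀ (by linarith)]
    linarith
  have hθ9 : θ ^ 2 ≤ 1 / 9 := by
    rw [hθ2, div_le_iff₀ (by linarith)]
    linarith
  have hθ3 : θ ≤ 1 / 3 := by
    have h1 : θ ^ 2 ≤ (1 / 3) ^ 2 := by
      have h2 : ((1:ℝ) / 3) ^ 2 = 1 / 9 := by norm_num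
      linarith
    exact le_of_sq_le_sq_pos h1
  obtain ⟨B, hB⟩ : ∃ B : ℕ, B = ⌈2 / θ ^ 2⌉₊ := ⟨_, rfl⟩
  have hθsq : 0 < θ ^ 2 := by positivity
  have hBl : 2 / θ ^ 2 ≤ (B : ℝ) := by rw [hB]; exact Nat.le_ceil _
  have h1θ : 1 ≤ 1 / θ ^ 2 := by rw [le_div_iff₀ hθsq]; linarith
  have hBu : (B : ℝ) ≤ 3 / θ ^ 2 := by
    have h1 := (Nat.ceil_lt_add_one (show (0:ℝ) ≤ 2 / θ ^ 2 by positivity)).le
    rw [← hB] at h1
    have h2 : 3 / θ ^ 2 = 2 / θ ^ 2 + 1 / θ ^ 2 := by ring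
    linarith
  have hB1 : 1 ≤ B := by
    have : (1:ℝ) ≤ B := by
      have h2 : 2 / θ ^ 2 = 2 * (1 / θ ^ 2) := by ring
      linarith
    exact_mod_cast this
  have hBu2 : (B : ℝ) ≤ 432 * D * L ^ 3 / e ^ 2 := by
    have h1 : 3 / θ ^ 2 = 216 * D * r * L ^ 2 / e ^ 2 := by
      rw [hθ2, hv]
      field_simp
      norm_num
    rw [h1] at hBu
    refine hBu.trans ?_
    apply div_le_div_of_nonneg_right _ (by positivity)
    have h5 : 216 * D * r * L ^ 2 ≤ 216 * D * (2 * L) * L ^ 2 := by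
      apply mul_le_mul_of_nonneg_right _ (by positivity)
      apply mul_le_mul_of_nonneg_left hr2 (by positivity)
    have h6 : 216 * D * (2 * L) * L ^ 2 = 432 * D * L ^ 3 := by ring
    linarith
  refine ⟨r * (M * J) + 1, r, M, J, B, θ, v, hθ0, hθ3, hv0, hr3, hB1, ?_, hpow, Nat.lt_succ_self _,
    hMl, hBl, ?_, ?_⟩
  · have hfin : (2:ℝ) * (((r * (M * J) + 1 : ℕ) : ℝ) * B) ≤ n := by
      refine le_trans ?_ hn
      have h1 : ((r * (M * J) + 1 : ℕ) : ℝ) * B ≤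
          ((12 * (C₀ + 1) + 1) * L ^ 2 * e ^ (-(d : ℝ) / 2 - 1)) * (432 * D * L ^ 3 / e ^ 2) :=
        mul_le_mul hs hBu2 (Nat.cast_nonneg _) (by positivity)
      have h2 : e ^ (-((d : ℝ) + 6) / 2) = e ^ (-(d : ℝ) / 2 - 1) / e ^ 2 := by
        rw [← Real.rpow_natCast e 2, ← Real.rpow_sub he0]
        congr 1
        push_cast
        ring
      have h3 : e ^ (-((d : ℝ) + 6) / 2) = (40 : ℝ) ^ (((d : ℝ) + 6) / 2) *
          ε ^ (-((d : ℝ) + 6) / 2) := by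
        rw [he, div_eq_mul_inv, Real.mul_rpow hε0.le (by norm_num), Real.inv_rpow (by norm_num),
          ← Real.rpow_neg (by norm_num)]
        have : -(-((d : ℝ) + 6) / 2) = ((d : ℝ) + 6) / 2 := by ring
        rw [this]
        ring
      have h4 : 2 * (((12 * (C₀ + 1) + 1) * L ^ 2 * e ^ (-(d : ℝ) / 2 - 1)) *
          (432 * D * L ^ 3 / e ^ 2)) = K * e ^ (-((d : ℝ) + 6) / 2) * L ^ 5 := by
        rw [h2, hK]
        ring
      have h5 : L ^ 5 ≤ (a * (1 + Real.log m)) ^ 5 := pow_le_pow_left₀ (by linarith) hLa 5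
      calc (2:ℝ) * (((r * (M * J) + 1 : ℕ) : ℝ) * B)
          ≤ 2 * (((12 * (C₀ + 1) + 1) * L ^ 2 * e ^ (-(d : ℝ) / 2 - 1)) *
          (432 * D * L ^ 3 / e ^ 2)) := by linarith
        _ = K * e ^ (-((d : ℝ) + 6) / 2) * L ^ 5 := h4
        _ ≤ K * e ^ (-((d : ℝ) + 6) / 2) * (a * (1 + Real.log m)) ^ 5 :=
            mul_le_mul_of_nonneg_left h5 (by positivity)
        _ = K * 40 ^ (((d : ℝ) + 6) / 2) * a ^ 5 * ε ^ (-((d : ℝ) + 6) / 2) *
            (1 + Real.log m) ^ 5 := by rw [h3, mul_pow]; ring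
    exact_mod_cast hfin
  · refine sel d m hm _ r ?_ hr1
    rw [hθ2]
    field_simp
    exact hL
  · have h1 : (ε / 40) ^ 2 / (72 * ((d + 1 : ℕ) : ℝ) * r * v) = L := by
      rw [← hD, hv, ← he]
      field_simp
    rw [h1]
    have hm' : (0:ℝ) < m := by exact_mod_cast hm
    have h2 : Real.exp (-L) ≤ 1 / (16 * m * ((d + 1 : ℕ) : ℝ)) := by
      rw [← Lam_exp d m hm]
      exact Real.exp_le_exp.2 (by linarith)
    have h3 : 2 * ((m : ℝ) * ((d + 1 : ℕ) : ℝ)) * (1 / (16 * m * ((d + 1 : ℕ) : ℝ))) = 1 / 8 := by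
      have hd0 : (0:ℝ) < ((d + 1 : ℕ) : ℝ) := by rw [← hD]; linarith
      field_simp
      norm_num
    calc 2 * ((m : ℝ) * ((d + 1 : ℕ) : ℝ)) * Real.exp (-L)
        ≤ 2 * ((m : ℝ) * ((d + 1 : ℕ) : ℝ)) * (1 / (16 * m * ((d + 1 : ℕ) : ℝ))) :=
          mul_le_mul_of_nonneg_left h2 (by positivity)
      _ = 1 / 8 := h3
      _ < 1 := by norm_num

end Pool.Agent.Helper74.FF
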