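import Pool.Agent.Helper74.FF.M_PC

/-! Project FF, module P2. -/

set_option autoImplicit false

namespace Pool.Agent.Helper74.FF

open _root_.FF DV
open scoped BigOperators

/-- Real arithmetic for the choice of `B`. -/
theorem choiceB (s : ℕ) (hs : 1 ≤ s) (q Q Q' : ℝ) (hq : 1 ≤ q) (hQ0 : 0 < Q) (hQQ : Q ≤ Q')
    (hsQ : (s : ℝ) ≤ Q') : ∃ B : ℕ, 1 ≤ B ∧ Q ≤ ((s : ℝ) * B) ^ (1 / q) ∧
      2 * ((s : ℝ) * B) ≤ (4 * Q') ^ q := by
  have hs0 : (0:ℝ) < s := by exact_mod_cast hs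
  have hs1 : (1:ℝ) ≤ s := by exact_mod_cast hs
  have hq0 : 0 < q := by linarith
  have hQq : 0 < Q ^ q := Real.rpow_pos_of_pos hQ0 q
  refine ⟨⌈Q ^ q / s⌉₊, ?_, ?_, ?_⟩
  · exact Nat.one_le_iff_ne_zero.2 (Nat.pos_iff_ne_zero.1 (Nat.ceil_pos.2 (by positivity)))
  · have h1 : Q ^ q ≤ s * (⌈Q ^ q / s⌉₊ : ℝ) := by
      have h2 := Nat.le_ceil (Q ^ q / s)
      rw [div_le_iff₀ hs0] at h2
      linarith
    have h3 : (Q ^ q) ^ (1 / q) = Q := by
      rw [← Real.rpow_mul hQ0.le, mul_one_div_cancel hq0.ne', Real.rpow_one]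
    calc Q = (Q ^ q) ^ (1 / q) := h3.symm
      _ ≤ ((s : ℝ) * (⌈Q ^ q / s⌉₊ : ℝ)) ^ (1 / q) :=
        Real.rpow_le_rpow hQq.le h1 (by positivity)
  · have h1 := (Nat.ceil_lt_add_one (show (0:ℝ) ≤ Q ^ q / s by positivity)).le
    have h2 : (s : ℝ) * (⌈Q ^ q / s⌉₊ : ℝ) ≤ Q ^ q + s := by
      have h3 : (s : ℝ) * (⌈Q ^ q / s⌉₊ : ℝ) ≤ s * (Q ^ q / s + 1) :=
        mul_le_mul_of_nonneg_left h1 hs0.le
      have h4 : (s : ℝ) * (Q ^ q / s + 1) = Q ^ q + s := by field_simp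
      linarith
    have h5 : Q ^ q ≤ Q' ^ q := Real.rpow_le_rpow hQ0.le hQQ hq0.le
    have hQ1 : 1 ≤ Q' := by linarith
    have h6 : (s : ℝ) ≤ Q' ^ q := by
      have h7 : Q' ^ (1:ℝ) ≤ Q' ^ q := Real.rpow_le_rpow_of_exponent_le hQ1 hq
      rw [Real.rpow_one] at h7
      linarith
    have h8 : (4 * Q') ^ q = 4 ^ q * Q' ^ q := Real.mul_rpow (by norm_num) (by linarith)
    have h9 : (4:ℝ) ≤ 4 ^ q := by
      have h10 : (4:ℝ) ^ (1:ℝ) ≤ 4 ^ q := Real.rpow_le_rpow_of_exponent_le (by norm_num) hq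
      rwa [Real.rpow_one] at h10
    have h11 : 4 * Q' ^ q ≤ (4 * Q') ^ q := by
      rw [h8]
      exact mul_le_mul_of_nonneg_right h9 (by positivity)
    linarith

theorem hP2 : StP2 := by
  intro d hd C₀ C₁ hC₀ hC₁
  set D : ℝ := ((d + 1 : ℕ) : ℝ) with hD
  have hD2 : (2:ℝ) ≤ D := by rw [hD]; exact_mod_cast (by omega : 2 ≤ d + 1)
  set a : ℝ := 1 + Real.log (16 * D) with ha
  have ha1 : 1 ≤ a := by
    have : 0 ≤ Real.log (16 * D) := Real.log_nonneg (by linarith)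
    linarith
  set K : ℝ := 24 * (12 * (C₀ + 1) + 1) * (C₁ + 1) with hK
  have hK0 : 0 < K := by positivity
  refine ⟨K * (40 : ℝ) ^ ((d : ℝ) / 2 + 2) * a ^ 3, by positivity, ?_⟩
  intro ε hε0 hε1 m n hm q A hq hA hn
  set e : ℝ := ε / 40 with he
  have he0 : 0 < e := by positivity
  have he1 : e ≤ 1 / 80 := by rw [he]; linarith
  set L : ℝ := Lam d m with hL
  have hL4 : 4 ≤ L := Lam_ge d m hd hm
  have hLa : L ≤ a * (1 + Real.log m) := Lam_le d m hm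
  obtain ⟨r, M, J, hr1, hr2, hr3, hpow, hMl, hs⟩ := common d C₀ hC₀ e L he0 he1 hL4
  obtain ⟨θ, hθ⟩ : ∃ θ : ℝ, θ = e / 3 / L := ⟨_, rfl⟩
  have hθ0 : 0 < θ := by rw [hθ]; positivity
  have hθ3 : θ ≤ 1 / 3 := by
    rw [hθ, div_le_iff₀ (by linarith)]
    linarith
  obtain ⟨s, hsdef⟩ : ∃ s : ℕ, s = r * (M * J) + 1 := ⟨_, rfl⟩
  rw [← hsdef] at hs
  have hs1 : 1 ≤ s := by omega
  have hs1' : (1:ℝ) ≤ s := by exact_mod_cast hs1
  set E : ℝ := (1 / ε) ^ (d + 3) with hE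
  have hE1 : 1 ≤ E := by
    apply one_le_pow₀
    rw [le_div_iff₀ hε0]; linarith
  have hQ0 : 0 < 2 * (s : ℝ) / θ * (A * (C₁ * E)) := by positivity
  have h2s : (s : ℝ) ≤ 2 * (s : ℝ) / θ := by
    rw [le_div_iff₀ hθ0]
    nlinarith
  obtain ⟨B, hB1, hB2, hB3⟩ := choiceB s hs1 q (2 * (s : ℝ) / θ * (A * (C₁ * E)))
    (2 * (s : ℝ) / θ * (A * ((C₁ + 1) * E))) hq hQ0
    (by
      apply mul_le_mul_of_nonneg_left _ (by positivity)
      apply mul_le_mul_of_nonneg_left _ (by linarith)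
      apply mul_le_mul_of_nonneg_right _ (by linarith)
      linarith)
    (by
      have h1 : 1 ≤ A * ((C₁ + 1) * E) :=
        one_le_mul_of_one_le_of_one_le hA
          (one_le_mul_of_one_le_of_one_le (by linarith) hE1)
      calc (s : ℝ) ≤ 2 * (s : ℝ) / θ := h2s
        _ = 2 * (s : ℝ) / θ * 1 := by ring
        _ ≤ _ := mul_le_mul_of_nonneg_left h1 (by positivity))
  refine ⟨s, r, M, J, B, θ, hθ0, hθ3, hr3, hB1, ?_, hpow, by rw [hsdef]; exact Nat.lt_succ_self _,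
    hMl, hB2, ?_⟩
  · have hfin : (2:ℝ) * ((s : ℝ) * B) ≤ n := by
      refine hB3.trans (le_trans ?_ hn)
      apply Real.rpow_le_rpow (by positivity) _ (by linarith)
      have h1 : 4 * (2 * (s : ℝ) / θ * (A * ((C₁ + 1) * E))) =
          24 * L * (s / e) * (C₁ + 1) * A * E := by
        rw [hθ]
        field_simp
        ring
      rw [h1]
      have h2 : (s : ℝ) / e ≤ (12 * (C₀ + 1) + 1) * L ^ 2 * e ^ (-(d : ℝ) / 2 - 2) := by
        have h3 : e ^ (-(d : ℝ) / 2 - 2) = e ^ (-(d : ℝ) / 2 - 1) / e := by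
          rw [← Real.rpow_sub_one he0.ne']
          congr 1
          ring
        rw [h3, div_le_iff₀ he0]
        have h4 : (12 * (C₀ + 1) + 1) * L ^ 2 * (e ^ (-(d : ℝ) / 2 - 1) / e) * e =
            (12 * (C₀ + 1) + 1) * L ^ 2 * e ^ (-(d : ℝ) / 2 - 1) := by
          field_simp
        rw [h4]
        exact hs
      have h5 : e ^ (-(d : ℝ) / 2 - 2) * E = (40 : ℝ) ^ ((d : ℝ) / 2 + 2) *
          ε ^ (-(3 * (d : ℝ) + 10) / 2) := by
        have h6 : E = ε ^ (-((d : ℝ) + 3)) := by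
          rw [hE, one_div, inv_pow, Real.rpow_neg hε0.le]
          congr 1
          rw [← Real.rpow_natCast]
          congr 1
          push_cast
          ring
        have h7 : e ^ (-(d : ℝ) / 2 - 2) = (40 : ℝ) ^ ((d : ℝ) / 2 + 2) *
            ε ^ (-(d : ℝ) / 2 - 2) := by
          rw [he, div_eq_mul_inv, Real.mul_rpow hε0.le (by norm_num), Real.inv_rpow (by norm_num),
            ← Real.rpow_neg (by norm_num)]
          have : -(-(d : ℝ) / 2 - 2) = (d : ℝ) / 2 + 2 := by ring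
          rw [this]
          ring
        rw [h6, h7, mul_assoc, ← Real.rpow_add hε0]
        congr 2
        ring
      have h8 : L ^ 3 ≤ (a * (1 + Real.log m)) ^ 3 := pow_le_pow_left₀ (by linarith) hLa 3
      have hep : 0 < e ^ (-(d : ℝ) / 2 - 2) := Real.rpow_pos_of_pos he0 _
      have hepp : 0 < ε ^ (-(3 * (d : ℝ) + 10) / 2) := Real.rpow_pos_of_pos hε0 _
      calc 24 * L * (s / e) * (C₁ + 1) * A * E
          ≤ 24 * L * ((12 * (C₀ + 1) + 1) * L ^ 2 * e ^ (-(d : ℝ) / 2 - 2)) * (C₁ + 1) * A * E := by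
            have h9 : 24 * L * (s / e) ≤
                24 * L * ((12 * (C₀ + 1) + 1) * L ^ 2 * e ^ (-(d : ℝ) / 2 - 2)) :=
              mul_le_mul_of_nonneg_left h2 (by linarith)
            apply mul_le_mul_of_nonneg_right _ (by linarith)
            apply mul_le_mul_of_nonneg_right _ (by linarith)
            exact mul_le_mul_of_nonneg_right h9 (by linarith)
        _ = K * A * (e ^ (-(d : ℝ) / 2 - 2) * E) * L ^ 3 := by rw [hK]; ring
        _ ≤ K * A * (e ^ (-(d : ℝ) / 2 - 2) * E) * (a * (1 + Real.log m)) ^ 3 :=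
            mul_le_mul_of_nonneg_left h8 (by positivity)
        _ = K * 40 ^ ((d : ℝ) / 2 + 2) * a ^ 3 * A * ε ^ (-(3 * (d : ℝ) + 10) / 2) *
            (1 + Real.log m) ^ 3 := by rw [h5, mul_pow]; ring
    exact_mod_cast hfin
  · refine sel d m hm _ r ?_ hr1
    rw [hθ]
    field_simp
    exact hL

end Pool.Agent.Helper74.FF
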