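import Pool.Agent.Helper69.FF.St

/-! Project FF, common real arithmetic for the modules P1 and P2. -/

set_option autoImplicit false

namespace Pool.Agent.Helper74.FF

theorem one_add_ge {e : ℝ} (h0 : 0 < e) (h1 : e ≤ 1) : Real.exp (e / 2) ≤ 1 + e := by
  have h := Real.abs_exp_sub_one_sub_id_le (x := e / 2) (by rw [abs_of_pos (by linarith)]; linarith)
  have h2 := (abs_le.1 h).2
  nlinarith

theorem common (d : ℕ) (C₀ : ℝ) (hC₀ : 0 < C₀) (e L : ℝ) (he0 : 0 < e) (he1 : e ≤ 1 / 80)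
    (hL : 4 ≤ L) :
    ∃ r M J : ℕ, L ≤ r ∧ (r : ℝ) ≤ 2 * L ∧ 1 ≤ r ∧ 3 * (r : ℝ) < (1 + e) ^ J ∧
      C₀ * e ^ (-(d : ℝ) / 2) ≤ M ∧
      ((r * (M * J) + 1 : ℕ) : ℝ) ≤ (12 * (C₀ + 1) + 1) * L ^ 2 * e ^ (-(d : ℝ) / 2 - 1) := by
  obtain ⟨r, hr⟩ : ∃ r : ℕ, r = ⌈L⌉₊ := ⟨_, rfl⟩
  have hrL : L ≤ r := by rw [hr]; exact Nat.le_ceil _
  have hrU : (r : ℝ) ≤ 2 * L := by
    have := (Nat.ceil_lt_add_one (by linarith : (0:ℝ) ≤ L)).le
    rw [← hr] at this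
    linarith
  have hr0 : (0:ℝ) < r := by linarith
  obtain ⟨J, hJ⟩ : ∃ J : ℕ, J = ⌈2 * Real.log (3 * r) / e⌉₊ + 1 := ⟨_, rfl⟩
  have hlog0 : 0 ≤ Real.log (3 * r) := Real.log_nonneg (by linarith)
  have hJl : 2 * Real.log (3 * r) / e + 1 ≤ J := by
    rw [hJ]; push_cast
    have := Nat.le_ceil (2 * Real.log (3 * r) / e)
    linarith
  have hlogL : Real.log (3 * r) ≤ 2 * L := by
    have h1 : Real.log (3 * r) ≤ Real.log (6 * L) := Real.log_le_log (by linarith) (by linarith)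
    have h2 : Real.log (6 * L) = Real.log 6 + Real.log L := Real.log_mul (by norm_num) (by linarith)
    have h3 : Real.log L ≤ L - 1 := Real.log_le_sub_one_of_pos (by linarith)
    have h4 : Real.log 6 ≤ 5 := by
      have := Real.log_le_sub_one_of_pos (show (0:ℝ) < 6 by norm_num)
      linarith
    linarith
  have hJu : (J : ℝ) ≤ 6 * L / e := by
    have h1 := (Nat.ceil_lt_add_one (show (0:ℝ) ≤ 2 * Real.log (3 * r) / e by positivity)).le
    have h2 : (J : ℝ) ≤ 2 * Real.log (3 * r) / e + 2 := by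
      rw [hJ]; push_cast; linarith
    have h3 : 2 * Real.log (3 * r) / e + 2 ≤ 6 * L / e := by
      rw [div_add' _ _ _ (ne_of_gt he0)]
      apply div_le_div_of_nonneg_right _ he0.le
      nlinarith
    linarith
  have hpow : 3 * (r : ℝ) < (1 + e) ^ J := by
    have h1 : Real.exp (e / 2) ^ J ≤ (1 + e) ^ J :=
      pow_le_pow_left₀ (Real.exp_pos _).le (one_add_ge he0 (by linarith)) J
    have h2 : Real.exp (e / 2) ^ J = Real.exp (J * (e / 2)) := (Real.exp_nat_mul _ _).symm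
    have h3 : Real.log (3 * r) < J * (e / 2) := by
      have h4 : (2 * Real.log (3 * r) / e + 1) * (e / 2) ≤ J * (e / 2) :=
        mul_le_mul_of_nonneg_right hJl (by linarith)
      have h5 : (2 * Real.log (3 * r) / e + 1) * (e / 2) = Real.log (3 * r) + e / 2 := by
        field_simp
      linarith
    have h6 : 3 * (r : ℝ) < Real.exp (J * (e / 2)) := by
      rw [← Real.log_lt_iff_lt_exp (by linarith)]
      exact h3
    linarith
  obtain ⟨M, hM⟩ : ∃ M : ℕ, M = ⌈C₀ * e ^ (-(d : ℝ) / 2)⌉₊ := ⟨_, rfl⟩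
  have hE0 : (0:ℝ) < e ^ (-(d : ℝ) / 2) := Real.rpow_pos_of_pos he0 _
  have hE1 : (1:ℝ) ≤ e ^ (-(d : ℝ) / 2) := by
    apply Real.one_le_rpow_of_pos_of_le_one_of_nonpos he0 (by linarith)
    have : (0:ℝ) ≤ d := Nat.cast_nonneg d
    linarith
  have hMl : C₀ * e ^ (-(d : ℝ) / 2) ≤ M := by rw [hM]; exact Nat.le_ceil _
  have hMu : (M : ℝ) ≤ (C₀ + 1) * e ^ (-(d : ℝ) / 2) := by
    have := (Nat.ceil_lt_add_one (show (0:ℝ) ≤ C₀ * e ^ (-(d : ℝ) / 2) by positivity)).le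
    rw [← hM] at this
    linarith
  refine ⟨r, M, J, hrL, hrU, ?_, hpow, hMl, ?_⟩
  · have : (1:ℝ) ≤ r := by linarith
    exact_mod_cast this
  · push_cast
    have e1 : e ^ (-(d : ℝ) / 2 - 1) = e ^ (-(d : ℝ) / 2) / e := by
      rw [Real.rpow_sub_one (ne_of_gt he0)]
    rw [e1]
    have h1 : (r : ℝ) * (M * J) ≤ (2 * L) * (((C₀ + 1) * e ^ (-(d : ℝ) / 2)) * (6 * L / e)) := by
      apply mul_le_mul hrU _ (by positivity) (by linarith)
      exact mul_le_mul hMu hJu (by positivity) (by positivity)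
    have h2 : (1:ℝ) ≤ L ^ 2 * (e ^ (-(d : ℝ) / 2) / e) := by
      have h3 : (1:ℝ) ≤ e ^ (-(d : ℝ) / 2) / e := by
        rw [le_div_iff₀ he0]; linarith
      nlinarith
    have h4 : (2 * L) * (((C₀ + 1) * e ^ (-(d : ℝ) / 2)) * (6 * L / e)) =
        12 * (C₀ + 1) * (L ^ 2 * (e ^ (-(d : ℝ) / 2) / e)) := by
      field_simp
      ring
    have h5 : (12 * (C₀ + 1) + 1) * L ^ 2 * (e ^ (-(d : ℝ) / 2) / e) =
        12 * (C₀ + 1) * (L ^ 2 * (e ^ (-(d : ℝ) / 2) / e)) + L ^ 2 * (e ^ (-(d : ℝ) / 2) / e) := by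
      ring
    rw [h5]
    linarith

/-- The number `Λ`. -/
noncomputable def Lam (d m : ℕ) : ℝ := 1 + Real.log (16 * m * (d + 1 : ℕ))

theorem Lam_ge (d m : ℕ) (hd : 1 ≤ d) (hm : 1 ≤ m) : 4 ≤ Lam d m := by
  unfold Lam
  have h1 : (32:ℝ) ≤ 16 * m * (d + 1 : ℕ) := by
    have h2 : (1:ℝ) ≤ m := by exact_mod_cast hm
    have h3 : (2:ℝ) ≤ (d + 1 : ℕ) := by exact_mod_cast (by omega : 2 ≤ d + 1)
    nlinarith
  have h4 : (3:ℝ) ≤ Real.log 32 := by
    have h5 : (32:ℝ) = 2 ^ (5:ℕ) := by norm_num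
    rw [h5, Real.log_pow]
    have := Real.log_two_gt_d9
    push_cast
    linarith
  have h6 := Real.log_le_log (by norm_num) h1
  linarith

theorem Lam_le (d m : ℕ) (hm : 1 ≤ m) :
    Lam d m ≤ (1 + Real.log (16 * (d + 1 : ℕ))) * (1 + Real.log m) := by
  unfold Lam
  have hm' : (0:ℝ) < m := by exact_mod_cast hm
  have hd' : (0:ℝ) < (d + 1 : ℕ) := by positivity
  have h1 : Real.log (16 * m * (d + 1 : ℕ)) = Real.log (16 * (d + 1 : ℕ)) + Real.log m := by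
    rw [← Real.log_mul (by positivity) (by positivity)]
    congr 1
    ring
  rw [h1]
  have h2 : 0 ≤ Real.log m := Real.log_natCast_nonneg m
  have h3 : 0 ≤ Real.log (16 * (d + 1 : ℕ)) := by
    apply Real.log_nonneg
    have : (1:ℝ) ≤ (d + 1 : ℕ) := by exact_mod_cast (by omega : 1 ≤ d + 1)
    linarith
  nlinarith [mul_nonneg h2 h3]

theorem Lam_exp (d m : ℕ) (hm : 1 ≤ m) :
    Real.exp (-Lam d m + 1) = 1 / (16 * m * (d + 1 : ℕ)) := by
  unfold Lam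
  have hm' : (0:ℝ) < m := by exact_mod_cast hm
  have hd' : (0:ℝ) < (d + 1 : ℕ) := by positivity
  have : -(1 + Real.log (16 * m * (d + 1 : ℕ))) + 1 = -Real.log (16 * m * (d + 1 : ℕ)) := by ring
  rw [this, Real.exp_neg, Real.exp_log (by positivity), one_div]

theorem sel (d m : ℕ) (hm : 1 ≤ m) (x : ℝ) (r : ℕ) (hx : x = Lam d m) (hr : Lam d m ≤ r) :
    (m : ℝ) * (Real.exp (-x + 1) + Real.exp (-(r : ℝ) + 1)) < 1 := by
  have hm' : (0:ℝ) < m := by exact_mod_cast hm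
  have hd' : (1:ℝ) ≤ (d + 1 : ℕ) := by exact_mod_cast (by omega : 1 ≤ d + 1)
  have h1 : Real.exp (-x + 1) = 1 / (16 * m * (d + 1 : ℕ)) := by rw [hx]; exact Lam_exp d m hm
  have h2 : Real.exp (-(r : ℝ) + 1) ≤ 1 / (16 * m * (d + 1 : ℕ)) := by
    rw [← Lam_exp d m hm]
    exact Real.exp_le_exp.2 (by linarith)
  have h3 : (m : ℝ) * (1 / (16 * m * (d + 1 : ℕ)) + 1 / (16 * m * (d + 1 : ℕ))) =
      1 / (8 * (d + 1 : ℕ)) := by
    field_simp
    norm_num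
  have h4 : 1 / (8 * ((d + 1 : ℕ) : ℝ)) < 1 := by
    rw [div_lt_one (by positivity)]
    linarith
  calc (m : ℝ) * (Real.exp (-x + 1) + Real.exp (-(r : ℝ) + 1))
      ≤ (m : ℝ) * (1 / (16 * m * (d + 1 : ℕ)) + 1 / (16 * m * (d + 1 : ℕ))) := by
        apply mul_le_mul_of_nonneg_left _ hm'.le
        rw [h1]
        linarith
    _ = 1 / (8 * (d + 1 : ℕ)) := h3
    _ < 1 := h4

end Pool.Agent.Helper74.FF
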